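import Mathlib
import Pool.Agent.Results.MP_b296c2_gt.Riemannian
import Pool.Agent.L5helper93.Geo.Final

/-!
# Einstein metrics whose sectional curvatures are bounded above

A closed Riemannian manifold of dimension `n ≥ 5` with `Ric = (n - 1) κ g`, `κ > 0`, all of whose
sectional curvatures are at most `((11 n - 10) / (7 n - 10)) κ`, has constant curvature `κ`.
-/

open Bundle Manifold ContDiff VectorField

set_option linter.unusedSectionVars false

noncomputable section

namespace Pool.Agent.Results.MP_ebfab8_gt.SectionalUpperPinching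

open Pool.Agent.Results.MP_b296c2_gt.Riemannian

variable {E : Type*} [NormedAddCommGroup E] [NormedSpace ℝ E] [FiniteDimensional ℝ E]
  {H : Type*} [TopologicalSpace H] {I : ModelWithCorners ℝ E H}
  {M : Type*} [TopologicalSpace M] [ChartedSpace H M] [IsManifold I ∞ M]
  [RiemannianBundle (fun x : M => TangentSpace I x)]
  [IsContMDiffRiemannianBundle I ∞ E (fun x : M => TangentSpace I x)]

/-- The Einstein equation `Ric = (n - 1) κ g`, where `n` is the dimension and
`Ric (u, v) = ∑ i, ⟨R (u, b i) b i, v⟩` for an orthonormal basis `b` of the tangent space. -/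
def IsEinstein (n : ℕ) (R : CurvField I M) (κ : ℝ) : Prop :=
  ∀ (x : M) (b : OrthonormalBasis (Fin n) ℝ (TangentSpace I x)) (u v : TangentSpace I x),
    ∑ i, inner ℝ (R x u (b i) (b i)) v = ((n : ℝ) - 1) * κ * inner ℝ u v

/-- Every sectional curvature is at most `k`: `⟨R (u, v) v, u⟩ ≤ k` for all orthonormal tangent
vectors `u`, `v` at all points. -/
def SecAtMost (R : CurvField I M) (k : ℝ) : Prop :=
  ∀ (x : M) (u v : TangentSpace I x), inner ℝ u u = (1 : ℝ) → inner ℝ v v = (1 : ℝ) →
    inner ℝ u v = (0 : ℝ) → inner ℝ (R x u v v) u ≤ k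

/-- The curvature is constant, equal to `κ`: `R (u, v) w = κ (⟨v, w⟩ u - ⟨u, w⟩ v)`. -/
def HasConstantCurvature (R : CurvField I M) (κ : ℝ) : Prop :=
  ∀ (x : M) (u v w : TangentSpace I x),
    R x u v w = κ • ((inner ℝ v w : ℝ) • u - (inner ℝ u w : ℝ) • v)

/-- Rigidity of Einstein metrics of positive scalar curvature under an upper bound for the
sectional curvatures. -/
theorem result {E : Type*} [NormedAddCommGroup E] [NormedSpace ℝ E] [FiniteDimensional ℝ E]
    {H : Type*} [TopologicalSpace H] {I : ModelWithCorners ℝ E H}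
    {M : Type*} [TopologicalSpace M] [ChartedSpace H M] [IsManifold I ∞ M]
    [T2Space M] [CompactSpace M] [BoundarylessManifold I M]
    [RiemannianBundle (fun x : M => TangentSpace I x)]
    [IsContMDiffRiemannianBundle I ∞ E (fun x : M => TangentSpace I x)]
    (n : ℕ) (hdim : Module.finrank ℝ E = n) (hn : 5 ≤ n)
    (cov : CovariantDerivative I E (TangentSpace I : M → Type _)) (hcov : IsLeviCivita cov)
    (R : CurvField I M) (hR : IsRiemannTensor cov R) (κ : ℝ) (hκ : 0 < κ)
    (hE : IsEinstein n R κ)
    (hsec : SecAtMost R ((11 * (n : ℝ) - 10) / (7 * (n : ℝ) - 10) * κ)) :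
    HasConstantCurvature R κ := by
  have : Nontrivial E := Module.nontrivial_of_finrank_pos (R := ℝ) (by omega)
  intro x u v w
  exact Pool.Agent.L5helper93.Geo.rigid hdim hn hcov hR hκ hE hsec x u v w

end Pool.Agent.Results.MP_ebfab8_gt.SectionalUpperPinching
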