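import Mathlib
import Pool.Agent.Results.MP_b296c2_gt.Riemannian
import Pool.Agent.L5helper93.Geo.Rig8

/-!
# The optimal upper curvature bound for Einstein metrics in dimension eight

A closed connected Riemannian manifold of dimension eight with `Ric = 7 κ g`, `κ > 0`, all of whose
sectional curvatures are at most `(7 / 4) κ`, either has constant curvature or has parallel
curvature tensor and the Jacobi operators of the quaternionic projective plane.
-/

open Bundle Manifold ContDiff VectorField

set_option linter.unusedSectionVars false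

noncomputable section

namespace Pool.Agent.Results.MP_ebfab8_gt.SharpPinchingDimEight

open Pool.Agent.Results.MP_b296c2_gt.Riemannian

variable {E : Type*} [NormedAddCommGroup E] [NormedSpace ℝ E] [FiniteDimensional ℝ E]
  {H : Type*} [TopologicalSpace H] {I : ModelWithCorners ℝ E H}
  {M : Type*} [TopologicalSpace M] [ChartedSpace H M] [IsManifold I ∞ M]
  [RiemannianBundle (fun x : M => TangentSpace I x)]
  [IsContMDiffRiemannianBundle I ∞ E (fun x : M => TangentSpace I x)]

/-- The Einstein equation `Ric = 7 κ g` in dimension eight, where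
`Ric (u, v) = ∑ i, ⟨R (u, b i) b i, v⟩` for an orthonormal basis `b` of the tangent space. -/
def IsEinstein (R : CurvField I M) (κ : ℝ) : Prop :=
  ∀ (x : M) (b : OrthonormalBasis (Fin 8) ℝ (TangentSpace I x)) (u v : TangentSpace I x),
    ∑ i, inner ℝ (R x u (b i) (b i)) v = 7 * κ * inner ℝ u v

/-- Every sectional curvature is at most `k`: `⟨R (u, v) v, u⟩ ≤ k` for all orthonormal tangent
vectors `u`, `v` at all points. -/
def SecAtMost (R : CurvField I M) (k : ℝ) : Prop :=
  ∀ (x : M) (u v : TangentSpace I x), inner ℝ u u = (1 : ℝ) → inner ℝ v v = (1 : ℝ) →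
    inner ℝ u v = (0 : ℝ) → inner ℝ (R x u v v) u ≤ k

/-- The curvature is constant, equal to `κ`: `R (u, v) w = κ (⟨v, w⟩ u - ⟨u, w⟩ v)`. -/
def HasConstantCurvature (R : CurvField I M) (κ : ℝ) : Prop :=
  ∀ (x : M) (u v w : TangentSpace I x),
    R x u v w = κ • ((inner ℝ v w : ℝ) • u - (inner ℝ u w : ℝ) • v)

/-- The vector field `∇_V X`. -/
def along (cov : CovariantDerivative I E (TangentSpace I : M → Type _))
    (V X : Π x : M, TangentSpace I x) : Π x : M, TangentSpace I x :=
  fun x => cov X x (V x)

/-- The vector field `R (X, Y) Z`. -/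
def act (R : CurvField I M) (X Y Z : Π x : M, TangentSpace I x) : Π x : M, TangentSpace I x :=
  fun x => R x (X x) (Y x) (Z x)

/-- The curvature tensor is parallel: `∇ R = 0`, that is, for all smooth vector fields
`∇_V (R (X, Y) Z) = R (∇_V X, Y) Z + R (X, ∇_V Y) Z + R (X, Y) ∇_V Z`. -/
def IsParallel (cov : CovariantDerivative I E (TangentSpace I : M → Type _))
    (R : CurvField I M) : Prop :=
  ∀ ⦃V X Y Z : Π x : M, TangentSpace I x⦄, CMDiff ∞ (T% V) → CMDiff ∞ (T% X) →
    CMDiff ∞ (T% Y) → CMDiff ∞ (T% Z) → ∀ x,
    along cov V (act R X Y Z) x = act R (along cov V X) Y Z x +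
      act R X (along cov V Y) Z x + act R X Y (along cov V Z) x

/-- For every unit tangent vector `u` the Jacobi operator `v ↦ R (v, u) u` has an orthonormal
basis `w` of eigenvectors of the orthogonal complement of `u`, three of them with eigenvalue
`(7 / 4) κ` and four with eigenvalue `(7 / 16) κ`. -/
def HasJacobiSpectrum (R : CurvField I M) (κ : ℝ) : Prop :=
  ∀ (x : M) (u : TangentSpace I x), inner ℝ u u = (1 : ℝ) →
    ∃ (w : Fin 7 → TangentSpace I x) (S : Finset (Fin 7)),
      (∀ i j, inner ℝ (w i) (w j) = if i = j then (1 : ℝ) else 0) ∧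
      (∀ i, inner ℝ (w i) u = (0 : ℝ)) ∧ S.card = 3 ∧
      (∀ i, R x (w i) u u = (if i ∈ S then 7 / 4 * κ else 7 / 16 * κ) • w i)

/-- The sharp upper pinching theorem for Einstein metrics in dimension eight. -/
theorem result {E : Type*} [NormedAddCommGroup E] [NormedSpace ℝ E] [FiniteDimensional ℝ E]
    {H : Type*} [TopologicalSpace H] {I : ModelWithCorners ℝ E H}
    {M : Type*} [TopologicalSpace M] [ChartedSpace H M] [IsManifold I ∞ M]
    [T2Space M] [CompactSpace M] [ConnectedSpace M] [BoundarylessManifold I M]
    [RiemannianBundle (fun x : M => TangentSpace I x)]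
    [IsContMDiffRiemannianBundle I ∞ E (fun x : M => TangentSpace I x)]
    (hdim : Module.finrank ℝ E = 8)
    (cov : CovariantDerivative I E (TangentSpace I : M → Type _)) (hcov : IsLeviCivita cov)
    (R : CurvField I M) (hR : IsRiemannTensor cov R) (κ : ℝ) (hκ : 0 < κ)
    (hE : IsEinstein R κ) (hsec : SecAtMost R (7 / 4 * κ)) :
    HasConstantCurvature R κ ∨ (IsParallel cov R ∧ HasJacobiSpectrum R κ) := by
  have : Nontrivial E := Module.nontrivial_of_finrank_pos (R := ℝ) (by omega)
  rcases Pool.Agent.L5helper93.Geo.rigid8 hdim hcov hR hκ (by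
    intro x b u v
    rw [hE x b u v]
    norm_num) hsec with h1 | ⟨h1, h2⟩
  · exact Or.inl h1
  · refine Or.inr ⟨?_, ?_⟩
    · intro V X Y Z hV hX hY hZ x
      have h3 := h1 hV hX hY hZ x
      unfold Pool.Agent.L5helper93.Geo.DR at h3
      rw [sub_sub, sub_sub, sub_eq_zero] at h3
      unfold along act
      rw [add_assoc]
      exact h3
    · intro x u hu
      obtain ⟨W, e, ⟨g1, g2, g3, g4, -⟩, g5⟩ := h2 x u hu
      have hW : ∀ i, R x (W i) u u = (κ * (1 + e i)) • W i := by
        intro i
        rw [g3]
        simp only [g1]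
        simp
      refine ⟨W, Finset.univ.filter fun i => e i = 3 / 4, g1, g2,
        Pool.Agent.L5helper93.Geo.pat_card g5 g4, ?_⟩
      intro i
      rw [hW]
      by_cases hi : e i = 3 / 4
      · rw [if_pos (by simp [hi]), hi]
        congr 1
        ring
      · have h4 : e i = - (9 / 16) := by
          rcases g5 i with h | h
          · exact absurd h hi
          · exact h
        rw [if_neg (by simp [hi]), h4]
        congr 1
        ring

end Pool.Agent.Results.MP_ebfab8_gt.SharpPinchingDimEight
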