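import Mathlib
import Pool.Agent.Results.MP_b296c2_gt.Riemannian
import Pool.Agent.L5helper93.Geo.TwoFormMain

/-!
# Harmonic two-forms on Einstein manifolds whose sectional curvatures are bounded above

Let `M` be a closed connected Riemannian manifold of dimension `n` with `Ric ≥ (n - 1) κ g`, `κ > 0`
(for instance an Einstein manifold with this constant), all of whose sectional curvatures are at
most `(4 (n - 1) / (n + 2)) κ`. Then a closed and coclosed two-form on `M` vanishes, or it is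
parallel and a multiple of a Kähler form, and `M` has constant holomorphic sectional curvature.
-/

open Bundle Manifold ContDiff VectorField

set_option linter.unusedSectionVars false

noncomputable section

namespace Pool.Agent.Results.MP_ebfab8_gt.TwoFormRigidity

open Pool.Agent.Results.MP_b296c2_gt.Riemannian

variable {E : Type*} [NormedAddCommGroup E] [NormedSpace ℝ E] [FiniteDimensional ℝ E]
  {H : Type*} [TopologicalSpace H] {I : ModelWithCorners ℝ E H}
  {M : Type*} [TopologicalSpace M] [ChartedSpace H M] [IsManifold I ∞ M]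
  [RiemannianBundle (fun x : M => TangentSpace I x)]
  [IsContMDiffRiemannianBundle I ∞ E (fun x : M => TangentSpace I x)]

/-- The Ricci curvature is at least `(n - 1) κ`: `∑ i, ⟨R (v, b i) b i, v⟩ ≥ (n - 1) κ |v|²` for
every orthonormal basis `b` of every tangent space. -/
def RicciAtLeast (n : ℕ) (R : CurvField I M) (κ : ℝ) : Prop :=
  ∀ (x : M) (b : OrthonormalBasis (Fin n) ℝ (TangentSpace I x)) (v : TangentSpace I x),
    ((n : ℝ) - 1) * κ * inner ℝ v v ≤ ∑ i, inner ℝ (R x v (b i) (b i)) v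

/-- Every sectional curvature is at most `k`. -/
def SecAtMost (R : CurvField I M) (k : ℝ) : Prop :=
  ∀ (x : M) (u v : TangentSpace I x), inner ℝ u u = (1 : ℝ) → inner ℝ v v = (1 : ℝ) →
    inner ℝ u v = (0 : ℝ) → inner ℝ (R x u v v) u ≤ k

/-- A field of bilinear forms on the tangent spaces. -/
abbrev BilinearField (I : ModelWithCorners ℝ E H) (M : Type*) [TopologicalSpace M]
    [ChartedSpace H M] : Type _ := Π x : M, TangentSpace I x →ₗ[ℝ] TangentSpace I x →ₗ[ℝ] ℝ

/-- The function `θ (X, Y)`. -/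
def onFields (θ : BilinearField I M) (X Y : Π x : M, TangentSpace I x) : M → ℝ :=
  fun x => θ x (X x) (Y x)

/-- A smooth two-form: alternating, and `θ (X, Y)` is smooth for smooth vector fields. -/
def IsTwoForm (θ : BilinearField I M) : Prop :=
  (∀ x u, θ x u u = 0) ∧ ∀ ⦃X Y : Π x : M, TangentSpace I x⦄, CMDiff ∞ (T% X) →
    CMDiff ∞ (T% Y) → CMDiff ∞ (onFields θ X Y)

/-- The form is closed: `X θ(Y,Z) + Y θ(Z,X) + Z θ(X,Y) = θ([X,Y],Z) + θ([Y,Z],X) + θ([Z,X],Y)`. -/
def IsClosedForm (θ : BilinearField I M) : Prop :=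
  ∀ ⦃X Y Z : Π x : M, TangentSpace I x⦄, CMDiff ∞ (T% X) → CMDiff ∞ (T% Y) →
    CMDiff ∞ (T% Z) → ∀ x,
    d% (onFields θ Y Z) x (X x) + d% (onFields θ Z X) x (Y x) + d% (onFields θ X Y) x (Z x) =
      onFields θ (mlieBracket I X Y) Z x + onFields θ (mlieBracket I Y Z) X x +
        onFields θ (mlieBracket I Z X) Y x

/-- The covariant derivative `(∇_V θ) (X, Y) = V θ(X,Y) - θ(∇_V X, Y) - θ(X, ∇_V Y)`. -/
def covDer (cov : CovariantDerivative I E (TangentSpace I : M → Type _)) (θ : BilinearField I M)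
    (V X Y : Π x : M, TangentSpace I x) : M → ℝ :=
  fun x => d% (onFields θ X Y) x (V x) - θ x (cov X x (V x)) (Y x) - θ x (X x) (cov Y x (V x))

/-- The form is coclosed: `∑ i, (∇_{e i} θ) (e i, Y) = 0` at every point at which the smooth vector
fields `e 1, ..., e n` are orthonormal. -/
def IsCoclosed (n : ℕ) (cov : CovariantDerivative I E (TangentSpace I : M → Type _))
    (θ : BilinearField I M) : Prop :=
  ∀ (x : M) (e : Fin n → Π x : M, TangentSpace I x), (∀ i, CMDiff ∞ (T% (e i))) →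
    (∀ i j, inner ℝ (e i x) (e j x) = if i = j then (1 : ℝ) else 0) →
    ∀ Y : Π x : M, TangentSpace I x, CMDiff ∞ (T% Y) → ∑ i, covDer cov θ (e i) (e i) Y x = 0

/-- The form is parallel. -/
def IsParallelForm (cov : CovariantDerivative I E (TangentSpace I : M → Type _))
    (θ : BilinearField I M) : Prop :=
  ∀ ⦃V X Y : Π x : M, TangentSpace I x⦄, CMDiff ∞ (T% V) → CMDiff ∞ (T% X) →
    CMDiff ∞ (T% Y) → ∀ x, covDer cov θ V X Y x = 0

/-- An orthogonal almost complex structure. -/
def IsOrthogonalComplex (J : Π x : M, TangentSpace I x →ₗ[ℝ] TangentSpace I x) : Prop :=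
  (∀ (x : M) (u : TangentSpace I x), J x (J x u) = - u) ∧
    ∀ (x : M) (u v : TangentSpace I x), inner ℝ (J x u) (J x v) = (inner ℝ u v : ℝ)

/-- The curvature tensor of constant holomorphic sectional curvature `k`:
`R (u, v) w = (k / 4) (⟨v,w⟩ u - ⟨u,w⟩ v + ⟨Jv,w⟩ Ju - ⟨Ju,w⟩ Jv - 2 ⟨Ju,v⟩ Jw)`. -/
def HasConstantHolomorphicCurvature (R : CurvField I M)
    (J : Π x : M, TangentSpace I x →ₗ[ℝ] TangentSpace I x) (k : ℝ) : Prop :=
  ∀ (x : M) (u v w : TangentSpace I x), R x u v w =
    (k / 4) • ((inner ℝ v w : ℝ) • u - (inner ℝ u w : ℝ) • v + (inner ℝ (J x v) w : ℝ) • J x u -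
      (inner ℝ (J x u) w : ℝ) • J x v - (2 * inner ℝ (J x u) v : ℝ) • J x w)

/-- The rigidity theorem for harmonic two-forms. -/
theorem result {E : Type*} [NormedAddCommGroup E] [NormedSpace ℝ E] [FiniteDimensional ℝ E]
    {H : Type*} [TopologicalSpace H] {I : ModelWithCorners ℝ E H}
    {M : Type*} [TopologicalSpace M] [ChartedSpace H M] [IsManifold I ∞ M]
    [T2Space M] [CompactSpace M] [ConnectedSpace M] [BoundarylessManifold I M]
    [RiemannianBundle (fun x : M => TangentSpace I x)]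
    [IsContMDiffRiemannianBundle I ∞ E (fun x : M => TangentSpace I x)]
    (n : ℕ) (hdim : Module.finrank ℝ E = n) (hn : 2 ≤ n)
    (cov : CovariantDerivative I E (TangentSpace I : M → Type _)) (hcov : IsLeviCivita cov)
    (R : CurvField I M) (hR : IsRiemannTensor cov R) (κ : ℝ) (hκ : 0 < κ)
    (hRic : RicciAtLeast n R κ)
    (hsec : SecAtMost R (4 * ((n : ℝ) - 1) / ((n : ℝ) + 2) * κ))
    (θ : BilinearField I M) (hθ : IsTwoForm θ) (hclosed : IsClosedForm θ)
    (hcoclosed : IsCoclosed n cov θ) :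
    (∀ (x : M) (u v : TangentSpace I x), θ x u v = 0) ∨
    (IsParallelForm cov θ ∧
      ∃ (c : ℝ) (J : Π x : M, TangentSpace I x →ₗ[ℝ] TangentSpace I x), 0 < c ∧
        IsOrthogonalComplex J ∧
        (∀ (x : M) (u v : TangentSpace I x), θ x u v = c * inner ℝ (J x u) v) ∧
        HasConstantHolomorphicCurvature R J (4 * ((n : ℝ) - 1) / ((n : ℝ) + 2) * κ)) := by
  have : Nontrivial E := Module.nontrivial_of_finrank_pos (R := ℝ) (by omega)
  have hθ' : Pool.Agent.L5helper93.Geo.IsForm θ := ⟨hθ.1, fun X Y hX hY => hθ.2 hX hY⟩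
  have hc : ∀ ⦃V X Y : Π x : M, TangentSpace I x⦄, CMDiff ∞ (T% V) → CMDiff ∞ (T% X) →
      CMDiff ∞ (T% Y) → ∀ x, Pool.Agent.L5helper93.Geo.DO cov θ V X Y x +
        Pool.Agent.L5helper93.Geo.DO cov θ X Y V x +
        Pool.Agent.L5helper93.Geo.DO cov θ Y V X x = 0 := by
    intro V X Y hV hX hY x
    have h1 := hclosed hV hX hY x
    have t1 := hcov.torsionFree hV hX x
    have t2 := hcov.torsionFree hX hY x
    have t3 := hcov.torsionFree hY hV x
    unfold onFields at h1
    rw [← t1, ← t2, ← t3] at h1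
    unfold Pool.Agent.L5helper93.Geo.DO Pool.Agent.L5helper93.Geo.OF
    simp only [map_sub, LinearMap.sub_apply] at h1
    have s1 := hθ'.skew x (X x) (cov Y x (V x))
    have s2 := hθ'.skew x (Y x) (cov V x (X x))
    have s3 := hθ'.skew x (V x) (cov X x (Y x))
    linarith
  rcases Pool.Agent.L5helper93.Geo.two_form hn hdim hcov hR hκ hRic hsec hθ' hc
    (fun x e he ho Y hY => hcoclosed x e he ho Y hY) with h1 | ⟨h1, c, J, h2, h3, h4, h5, h6⟩
  · exact Or.inl h1
  · exact Or.inr ⟨fun V X Y hV hX hY x => h1 hV hX hY x, c, J, h2, ⟨h3, h4⟩, h5, h6⟩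

end Pool.Agent.Results.MP_ebfab8_gt.TwoFormRigidity
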